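import Mathlib

/-!
# Rational Chow rings with height pairings

`ChowHeights 𝒱`: rational Chow rings on a category `𝒱` (the connected smooth projective varieties
over the algebraic closure of the rational numbers), with the cycles homologous to zero,
push-forward, ample classes and the height pairing of Beilinson and Bloch.
`ChowHeights.Standard`: their standard properties.
-/

set_option autoImplicit false

open CategoryTheory

namespace Pool.Agent.Helper70.BT

universe u v w

/-- Rational Chow rings with homological equivalence, push-forward, ample classes and heights. -/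
structure ChowHeights (𝒱 : Type u) [Category.{v} 𝒱] where
  /-- the Chow ring with rational coefficients -/
  A : 𝒱 → Type w
  [ring : ∀ X, CommRing (A X)]
  [alg : ∀ X, Algebra ℚ (A X)]
  /-- the dimension -/
  dim : 𝒱 → ℕ
  /-- the cycles of codimension `i` -/
  gr : ∀ X : 𝒱, ℕ → Submodule ℚ (A X)
  /-- the ideal of the cycles homologous to zero -/
  hom : ∀ X : 𝒱, Ideal (A X)
  /-- pull-back of cycles -/
  pull : ∀ {X Y : 𝒱}, (X ⟶ Y) → (A Y →ₐ[ℚ] A X)
  /-- push-forward of cycles -/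
  push : ∀ {X Y : 𝒱}, (X ⟶ Y) → (A X →ₗ[ℚ] A Y)
  /-- classes of ample divisors (with positive rational coefficients) -/
  Ample : ∀ {X : 𝒱}, A X → Prop
  /-- the height pairing of cycles homologous to zero -/
  ht : ∀ {X : 𝒱}, A X → A X → ℝ

attribute [instance] ChowHeights.ring ChowHeights.alg

namespace ChowHeights

variable {𝒱 : Type u} [Category.{v} 𝒱] (S : ChowHeights.{u, v, w} 𝒱)

/-- the group `Ch^i(X)^0` of cycles of codimension `i` homologous to zero -/
def homGr (X : 𝒱) (i : ℕ) : Set (S.A X) := {x | x ∈ S.gr X i ∧ x ∈ S.hom X}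

/-- Beilinson's Q1 for `(X, L)` -/
def Lefschetz {X : 𝒱} (L : S.A X) : Prop :=
  ∀ i : ℕ, 1 ≤ i → 2 * i ≤ S.dim X + 1 →
    Set.BijOn (fun x => L ^ (S.dim X + 1 - 2 * i) * x) (S.homGr X i) (S.homGr X (S.dim X + 1 - i))

/-- Beilinson's Q2 for `(X, L)` -/
def Index {X : 𝒱} (L : S.A X) : Prop :=
  ∀ i : ℕ, 1 ≤ i → 2 * i ≤ S.dim X + 1 → ∀ x ∈ S.homGr X i, x ≠ 0 →
    L ^ (S.dim X + 2 - 2 * i) * x = 0 →
      0 < (-1 : ℝ) ^ i * S.ht x (L ^ (S.dim X + 1 - 2 * i) * x)

/-- Q2 for `(X, L)` in the middle codimension: `(-1)^i ⟨x, x⟩ > 0` for `x ≠ 0` of codimension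
`i = (dim X + 1) / 2`, homologous to zero, with `L x = 0` -/
def MiddleIndex {X : 𝒱} (L : S.A X) : Prop :=
  ∀ i : ℕ, 2 * i = S.dim X + 1 → ∀ x ∈ S.homGr X i, x ≠ 0 → L * x = 0 → 0 < (-1 : ℝ) ^ i * S.ht x x

/-- the projection formula for heights along `f : Z ⟶ X` -/
def HtProjection {X Z : 𝒱} (f : Z ⟶ X) : Prop :=
  ∀ x ∈ S.hom X, ∀ z ∈ S.hom Z, S.ht (S.pull f x) z = S.ht x (S.push f z)

/-- `f : Z ⟶ X` is the projective bundle of the direct sum of the `M + 1` line bundles with the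
classes `L j` (or of multiples `N L j`), and `D` is the class of `O(1)` (divided by `N`) -/
structure IsBundle {X Z : 𝒱} {M : ℕ} (L : Fin (M + 1) → S.A X) (f : Z ⟶ X) (D : S.A Z) :
    Prop where
  dim_eq : S.dim Z = S.dim X + M
  relation : ∏ j, (D - S.pull f (L j)) = 0
  push_lt : ∀ j < M, S.push f (D ^ j) = 0
  push_eq : ∃ c : ℚ, 0 < c ∧ S.push f (D ^ M) = algebraMap ℚ (S.A X) c
  push_hom : ∀ z ∈ S.hom Z, S.push f z ∈ S.hom X
  ht_pull : S.HtProjection f

/-- Q2 in the middle codimension for the projective bundles `f : Z ⟶ X` of direct sums of ample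
line bundles `L j`, with the class `D` of `O(1)` -/
def BundleIndex (X : 𝒱) : Prop :=
  ∀ (M : ℕ) (L : Fin (M + 1) → S.A X) (Z : 𝒱) (f : Z ⟶ X) (D : S.A Z), (∀ j, S.Ample (L j)) →
    S.Ample D → S.IsBundle L f D → S.MiddleIndex D

/-- The cycles on `X` algebraically equivalent to zero: the combinations of the cycles
`q_* (ξ · Γ)`, for morphisms `q : W ⟶ X`, divisor classes `ξ` homologous to zero on `W` (points of
the Picard variety of `W`) and cycles `Γ` on `W`. (For a curve `T`, a cycle `Γ` on `T × X` and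
`W = T × X` these are the differences of two members of the family `Γ` of cycles on `X`.) -/
def AlgTriv (X : 𝒱) : Submodule ℚ (S.A X) :=
  Submodule.span ℚ {x | ∃ (W : 𝒱) (q : W ⟶ X) (ξ Γ : S.A W), ξ ∈ S.gr W 1 ∧ ξ ∈ S.hom W ∧
    x = S.push q (ξ * Γ)}

/-- properties of the grading by the codimension -/
structure Graded : Prop where
  mul_mem : ∀ {X : 𝒱} {i j : ℕ} {a b : S.A X}, a ∈ S.gr X i → b ∈ S.gr X j → a * b ∈ S.gr X (i + j)
  /-- a cycle of codimension zero homologous to zero is zero -/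
  hom_zero : ∀ {X : 𝒱} {a : S.A X}, a ∈ S.gr X 0 → a ∈ S.hom X → a = 0
  /-- there are no cycles of codimension larger than the dimension -/
  gr_large : ∀ {X : 𝒱} {i : ℕ} {a : S.A X}, S.dim X < i → a ∈ S.gr X i → a = 0

/-- properties of pull-back and push-forward -/
structure Functorial : Prop where
  pull_gr : ∀ {X Y : 𝒱} (f : X ⟶ Y) (i : ℕ) (a : S.A Y), a ∈ S.gr Y i → S.pull f a ∈ S.gr X i
  /-- pull-back respects homological equivalence -/
  pull_hom : ∀ {X Y : 𝒱} (f : X ⟶ Y) (a : S.A Y), a ∈ S.hom Y → S.pull f a ∈ S.hom X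
  /-- pull-back respects algebraic equivalence -/
  pull_algTriv : ∀ {X Y : 𝒱} (f : X ⟶ Y) (a : S.A Y), a ∈ S.AlgTriv Y → S.pull f a ∈ S.AlgTriv X
  /-- the projection formula -/
  projection : ∀ {X Y : 𝒱} (f : X ⟶ Y) (a : S.A Y) (b : S.A X),
    S.push f (S.pull f a * b) = a * S.push f b

/-- properties of the height pairing of cycles homologous to zero -/
structure HtStandard : Prop where
  ht_add : ∀ {X : 𝒱}, ∀ x ∈ S.hom X, ∀ y ∈ S.hom X, ∀ z ∈ S.hom X,
    S.ht (x + y) z = S.ht x z + S.ht y z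
  ht_symm : ∀ {X : 𝒱}, ∀ x ∈ S.hom X, ∀ y ∈ S.hom X, S.ht x y = S.ht y x
  ht_mul : ∀ {X : 𝒱} (a : S.A X), ∀ x ∈ S.hom X, ∀ y ∈ S.hom X, S.ht (a * x) y = S.ht x (a * y)

/-- properties of the ample classes -/
structure AmpleStandard : Prop where
  ample_gr : ∀ {X : 𝒱} {L : S.A X}, S.Ample L → L ∈ S.gr X 1
  /-- ampleness depends on the numerical class only -/
  ample_add : ∀ {X : 𝒱} {L ξ : S.A X}, S.Ample L → ξ ∈ S.gr X 1 → ξ ∈ S.hom X → S.Ample (L + ξ)
  exists_ample : ∀ X : 𝒱, ∃ L : S.A X, S.Ample L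

/-- projective bundles of direct sums of ample line bundles exist, and `O(1)` is ample on them -/
def HasBundles : Prop :=
  ∀ {X : 𝒱} {M : ℕ} (L : Fin (M + 1) → S.A X), (∀ j, S.Ample (L j)) →
    ∃ (Z : 𝒱) (f : Z ⟶ X) (D : S.A Z), S.Ample D ∧ S.IsBundle L f D

/-- Standard properties of Chow rings and height pairings. -/
structure Standard : Prop extends S.Graded, S.Functorial, S.HtStandard, S.AmpleStandard where
  bundle : S.HasBundles

end ChowHeights

end Pool.Agent.Helper70.BT
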