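import Pool.Agent.Helper70.BT.Defs
import Pool.Agent.Helper21.Beil.Core

set_option autoImplicit false

open CategoryTheory Pool.Agent.Helper21.Beil

namespace Pool.Agent.Helper70.BT

universe u v w

namespace ChowHeights

variable {𝒱 : Type u} [Category.{v} 𝒱] (S : ChowHeights.{u, v, w} 𝒱)

/-- the graded pieces of `hom X` -/
def grH (X : 𝒱) (i : ℕ) : Submodule ℚ (S.hom X) :=
  (S.gr X i).comap ((S.hom X).subtype.restrictScalars ℚ)

theorem mem_grH {X : 𝒱} {i : ℕ} {x : S.hom X} : x ∈ S.grH X i ↔ (x : S.A X) ∈ S.gr X i := Iff.rfl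

variable {S}

/-- the height pairing as a bilinear form on `hom X` -/
noncomputable def htL (hS : S.Standard) (X : 𝒱) : S.hom X →ₗ[ℚ] S.hom X →ₗ[ℚ] ℝ :=
  AddMonoidHom.toRatLinearMap
    (AddMonoidHom.mk' (fun x : S.hom X => AddMonoidHom.toRatLinearMap
      (AddMonoidHom.mk' (fun y : S.hom X => S.ht (x : S.A X) (y : S.A X)) fun y z => by
        show S.ht (x : S.A X) ((y : S.A X) + z) = _
        rw [hS.ht_symm _ x.2 _ (Ideal.add_mem _ y.2 z.2), hS.ht_add _ y.2 _ z.2 _ x.2,
          hS.ht_symm _ y.2 _ x.2, hS.ht_symm _ z.2 _ x.2])) fun x y => by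
      apply LinearMap.ext; intro z
      exact hS.ht_add _ x.2 _ y.2 _ z.2)

theorem htL_apply (hS : S.Standard) {X : 𝒱} (x y : S.hom X) :
    htL hS X x y = S.ht (x : S.A X) (y : S.A X) := rfl

section bundle
variable {X Z : 𝒱} (hS : S.Standard) (f : Z ⟶ X)

/-- the module structure on `hom Z` over the Chow ring of `X` -/
@[reducible] def modZ : Module (S.A X) (S.hom Z) := Module.compHom _ (S.pull f).toRingHom

theorem modZ_smul (r : S.A X) (z : S.hom Z) :
    letI := modZ (S := S) f
    r • z = S.pull f r • z := rfl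

/-- multiplication -/
def mu : letI := modZ (S := S) f; S.A Z →+* Module.End (S.A X) (S.hom Z) :=
  letI := modZ (S := S) f
  { toFun := fun a =>
      { toFun := fun z => a • z
        map_add' := fun x y => smul_add a x y
        map_smul' := fun r z => by
          show a • (S.pull f r • z) = S.pull f r • (a • z)
          rw [smul_smul, smul_smul, mul_comm] }
    map_one' := by ext z; simp
    map_mul' := fun a b => by
      apply LinearMap.ext; intro z
      show (a * b) • z = a • (b • z)
      rw [smul_smul]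
    map_zero' := by
      apply LinearMap.ext; intro z
      show (0 : S.A Z) • z = 0
      rw [zero_smul]
    map_add' := fun a b => by
      apply LinearMap.ext; intro z
      show (a + b) • z = a • z + b • z
      rw [add_smul] }

theorem mu_apply (a : S.A Z) (z : S.hom Z) :
    letI := modZ (S := S) f
    mu f a z = a • z := rfl

theorem mu_pull (r : S.A X) :
    letI := modZ (S := S) f
    mu f (S.pull f r) = algebraMap (S.A X) (Module.End (S.A X) (S.hom Z)) r := by
  let _ := modZ (S := S) f
  apply LinearMap.ext; intro z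
  rw [mu_apply, Module.algebraMap_end_apply]
  rfl

/-- pull-back of classes homologous to zero -/
def pullH : letI := modZ (S := S) f; S.hom X →ₗ[S.A X] S.hom Z :=
  letI := modZ (S := S) f
  { toFun := fun x => ⟨S.pull f x, hS.pull_hom f _ x.2⟩
    map_add' := fun x y => by ext; simp
    map_smul' := fun r x => by
      ext
      show S.pull f (r * (x : S.A X)) = S.pull f r * S.pull f x
      rw [map_mul] }

variable {M : ℕ} {L : Fin (M + 1) → S.A X} {D : S.A Z}

/-- push-forward of classes homologous to zero, divided by `c` -/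
def pushH (hB : S.IsBundle L f D) (c : ℚ) : letI := modZ (S := S) f; S.hom Z →ₗ[S.A X] S.hom X :=
  letI := modZ (S := S) f
  { toFun := fun z => c⁻¹ • ⟨S.push f z, hB.push_hom _ z.2⟩
    map_add' := fun x y => by
      rw [← smul_add]
      congr 1
      ext
      simp
    map_smul' := fun r z => by
      show c⁻¹ • (⟨S.push f (S.pull f r * (z : S.A Z)), _⟩ : S.hom X) =
        r • (c⁻¹ • (⟨S.push f z, _⟩ : S.hom X))
      rw [smul_comm r c⁻¹]
      congr 1
      ext
      show S.push f (S.pull f r * (z : S.A Z)) = r * S.push f z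
      rw [hS.projection] }

/-- the bundle data -/
noncomputable def bundleOf {ξ l a b : S.A X} {m : ℕ} (hm : 2 * m = S.dim X + M + 1) (hm1 : 1 ≤ m)
    (hB : S.IsBundle L f D) (hD : S.Ample D)
    (hL : ∀ j : Fin (M + 1), L j = if (j : ℕ) < M then a else b)
    (hl : l ∈ S.gr X 1) (hξ : ξ ∈ S.gr X 1) (hind : S.MiddleIndex D) (c : ℚ) (hc : 0 < c)
    (hcM : S.push f (D ^ M) = algebraMap ℚ (S.A X) c) :
    Bundle.{w, w, w} (S.hom X) (S.grH X) (htL hS X) l ξ a b M m :=
  letI := modZ (S := S) f
  { WZ := S.hom Z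
    gr' := S.grH Z
    ht' := c⁻¹ • htL hS Z
    D := mu f D
    pull := pullH hS f
    push := pushH hS f hB c
    pull_mem := fun j x hx => hS.pull_gr f j _ hx
    D_mem := fun j z hz => by
      have := hS.mul_mem (hS.ample_gr hD) hz
      rw [add_comm] at this
      exact this
    L_mem := fun j z hz => by
      have := hS.mul_mem (hS.pull_gr f 1 _ hl) hz
      rw [add_comm] at this
      exact this
    xi_mem := fun j z hz => by
      have := hS.mul_mem (hS.pull_gr f 1 _ hξ) hz
      rw [add_comm] at this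
      exact this
    push_lt := fun x j hj => by
      rw [← map_pow]
      refine Subtype.ext ?_
      show c⁻¹ • S.push f (D ^ j * S.pull f x) = 0
      rw [mul_comm, hS.projection, hB.push_lt j hj, mul_zero, smul_zero]
    push_eq := fun x => by
      rw [← map_pow]
      refine Subtype.ext ?_
      show c⁻¹ • S.push f (D ^ M * S.pull f x) = (x : S.A X)
      rw [mul_comm, hS.projection, hcM, mul_comm, ← Algebra.smul_def, smul_smul,
        inv_mul_cancel₀ hc.ne', one_smul]
    rel := fun x => by
      rw [← mu_pull, ← mu_pull, ← map_sub, ← map_sub, ← map_pow, ← map_mul]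
      have h1 : (D - S.pull f a) ^ M * (D - S.pull f b) = 0 := by
        rw [← hB.relation, Fin.prod_univ_castSucc]
        congr 1
        · rw [Finset.prod_congr rfl (fun j _ => by
            rw [hL, if_pos (show ((Fin.castSucc j : Fin (M + 1)) : ℕ) < M from j.2)])]
          simp
        · rw [hL, if_neg (by simp)]
      rw [h1, map_zero]
      rfl
    ht_pull := fun x z => by
      show c⁻¹ • S.ht (S.pull f x) z = htL hS X x (c⁻¹ • (⟨S.push f z, hB.push_hom _ z.2⟩ : S.hom X))
      rw [map_smul, htL_apply, hB.ht_pull _ x.2 _ z.2]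
    ht_D := fun y z => by
      show c⁻¹ • S.ht (D * (y : S.A Z)) z = c⁻¹ • S.ht (y : S.A Z) (D * (z : S.A Z))
      rw [hS.ht_mul _ _ y.2 _ z.2]
    ht_smul := fun r y z => by
      show c⁻¹ • S.ht (S.pull f r * (y : S.A Z)) z = c⁻¹ • S.ht (y : S.A Z) (S.pull f r * (z : S.A Z))
      rw [hS.ht_mul _ _ y.2 _ z.2]
    index := fun v hv hv0 hDv => by
      have h2 := hind m (by rw [hB.dim_eq]; omega) v ⟨hv, v.2⟩
        (fun h => hv0 (Subtype.ext h)) (congrArg Subtype.val hDv)
      show 0 < (-1 : ℝ) ^ m * (c⁻¹ • S.ht (v : S.A Z) v)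
      rw [mul_smul_comm, Rat.smul_def]
      exact mul_pos (by exact_mod_cast inv_pos.mpr hc) h2 }

end bundle

/-- Theorem D, first part: Q1 and Q2 for `X` and Q2 in the middle codimension for projective bundles
over `X` imply that divisor classes homologous to zero annihilate the cycles homologous to zero. -/
theorem pic_mul (hS : S.Standard) {X : 𝒱} {L : S.A X} (hL : S.Ample L) (h1 : S.Lefschetz L)
    (h2 : S.Index L) (hX : S.BundleIndex X)
    {ξ : S.A X} (hξ : ξ ∈ S.gr X 1) (hξh : ξ ∈ S.hom X) {i : ℕ} {y : S.A X}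
    (hy : y ∈ S.gr X i) (hyh : y ∈ S.hom X) : ξ * y = 0 := by
  have hadd : ∀ t : ℚ, S.Ample (L + t • ξ) := fun t =>
    hS.ample_add hL (Submodule.smul_mem _ t hξ) (by
      rw [Algebra.smul_def]; exact Ideal.mul_mem_left _ _ hξh)
  have hlarge : ∀ j, S.dim X < j → ∀ x ∈ S.grH X j, x = 0 := fun j hj x hx =>
    Subtype.ext (hS.gr_large hj hx)
  by_cases hi : i ≤ S.dim X
  · have H : Hodge (S.grH X) (htL hS X) L (S.dim X) :=
      { symm := fun x y => hS.ht_symm _ x.2 _ y.2
        adj := fun r x y => hS.ht_mul r _ x.2 _ y.2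
        L_mem := fun j x hx => by
          have := hS.mul_mem (hS.ample_gr hL) hx
          rw [add_comm] at this
          exact this
        gr_zero := fun x hx => Subtype.ext (hS.hom_zero hx x.2)
        gr_top := hlarge _ (Nat.lt_succ_self _)
        Q1 := fun j hj1 hj2 y hy => by
          obtain ⟨x, hx, hxy⟩ := (h1 j hj1 hj2).surjOn (show (y : S.A X) ∈ _ from ⟨hy, y.2⟩)
          exact ⟨⟨x, hx.2⟩, hx.1, Subtype.ext hxy⟩
        Q2 := fun j hj1 hj2 x hx hx0 hLx => h2 j hj1 hj2 x ⟨hx, x.2⟩
          (fun h => hx0 (Subtype.ext h)) (congrArg Subtype.val hLx) }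
    have key := core (ξ := ξ) H
      (fun j x hx => by
        have := hS.mul_mem hξ hx
        rw [add_comm] at this
        exact this)
      (fun j hj1 hj2 t u => by
        have hLj : ∀ k : Fin (S.dim X + 1 - 2 * j + 1), S.Ample
            (if (k : ℕ) < S.dim X + 1 - 2 * j then L + t • ξ else L + u • ξ) := fun k => by
          split_ifs <;> exact hadd _
        obtain ⟨Z, f, D, hD, hB⟩ := hS.bundle (X := X) (M := S.dim X + 1 - 2 * j) _ hLj
        obtain ⟨c, hc, hcM⟩ := hB.push_eq
        exact ⟨bundleOf hS f (by omega) (by omega) hB hD (fun _ => rfl) (hS.ample_gr hL) hξ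
          (hX _ _ Z f D hLj hD hB) c hc hcM⟩)
      i hi ⟨y, hyh⟩ hy
    exact congrArg Subtype.val key
  · rw [hS.gr_large (not_le.mp hi) hy, mul_zero]

theorem bundleIndex (hQ : ∀ (X : 𝒱) (L : S.A X), S.Ample L → S.Lefschetz L ∧ S.Index L) (X : 𝒱) :
    S.BundleIndex X := by
  intro M L Z f D _ hD _ i hi x hx hx0 hDx
  have h1 := (hQ Z D hD).2 i (by omega) (by omega) x hx hx0
  rw [show S.dim Z + 2 - 2 * i = 1 by omega, show S.dim Z + 1 - 2 * i = 0 by omega, pow_one,
    pow_zero, one_mul] at h1
  exact h1 hDx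

/-- Theorem D: Q1 and Q2 imply that cycles algebraically equivalent to zero annihilate the cycles
homologous to zero. -/
theorem algTriv_mul (hS : S.Standard)
    (hQ : ∀ (X : 𝒱) (L : S.A X), S.Ample L → S.Lefschetz L ∧ S.Index L)
    {X : 𝒱} {x : S.A X} (hx : x ∈ S.AlgTriv X) {i : ℕ} {y : S.A X}
    (hy : y ∈ S.gr X i) (hyh : y ∈ S.hom X) : x * y = 0 := by
  induction hx using Submodule.span_induction with
  | mem x hx =>
    obtain ⟨W, q, ξ, Γ, hξ, hξh, rfl⟩ := hx
    obtain ⟨L, hL⟩ := hS.exists_ample W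
    rw [mul_comm, ← hS.projection, ← mul_assoc, mul_comm (S.pull q y),
      pic_mul hS hL (hQ W L hL).1 (hQ W L hL).2 (bundleIndex hQ W) hξ hξh (hS.pull_gr _ i _ hy) (hS.pull_hom _ _ hyh), zero_mul, map_zero]
  | zero => rw [zero_mul]
  | add a b _ _ ha hb => rw [add_mul, ha, hb, add_zero]
  | smul c a _ ha => rw [smul_mul_assoc, ha, smul_zero]

end ChowHeights

end Pool.Agent.Helper70.BT
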